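import Mathlib
import Pool.Agent.Lib.MP_14477d_an.Markushevich
import Pool.Agent.Lib.MP_14477d_an.Blocks

/-!
Every nonseparable Banach space with a projectional skeleton has a Markushevich basis and a
separable projectional resolution of the identity leaving the basis vectors (together with zero)
invariant.
-/

set_option autoImplicit false

namespace Pool.Agent.Results.MP_14477d_an.InvariantMBasis

open Set

universe u v

/-- The density character: the least cardinality of a dense subset. -/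
noncomputable def dens (X : Type u) [TopologicalSpace X] : Cardinal.{u} :=
  sInf {c : Cardinal.{u} | ∃ D : Set X, Dense D ∧ Cardinal.mk D = c}

variable {𝕜 : Type} [RCLike 𝕜] {X : Type u} [NormedAddCommGroup X] [NormedSpace 𝕜 X]

/-- `(P s)` is a projectional skeleton on `X`, indexed by the up-directed sigma-complete
poset `Γ`. -/
structure IsProjectionalSkeleton {Γ : Type v} [PartialOrder Γ] (P : Γ → X →L[𝕜] X) : Prop where
  directed : ∀ s t : Γ, ∃ r : Γ, s ≤ r ∧ t ≤ r
  sigmaComplete : ∀ s : ℕ → Γ, Monotone s → ∃ t : Γ, IsLUB (range s) t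
  proj : ∀ s, (P s).comp (P s) = P s
  separable : ∀ s, TopologicalSpace.IsSeparable (range (P s))
  comm : ∀ s t, s ≤ t → P s = (P s).comp (P t) ∧ P s = (P t).comp (P s)
  cont : ∀ (s : ℕ → Γ) (t : Γ), Monotone s → IsLUB (range s) t →
    range (P t) = closure (⋃ n, range (P (s n)))
  cover : (⋃ s, range (P s)) = univ

/-- `(Q α)`, `α ≤ κ`, is a separable projectional resolution of the identity (the values of `Q`
at ordinals above `κ` play no role). -/
structure IsSPRI (κ : Ordinal.{u}) (Q : Ordinal.{u} → X →L[𝕜] X) : Prop where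
  proj : ∀ α ≤ κ, (Q α).comp (Q α) = Q α
  zero : Q 0 = 0
  top : Q κ = ContinuousLinearMap.id 𝕜 X
  separable : ∀ α < κ, TopologicalSpace.IsSeparable (range (Q (α + 1) - Q α))
  comm : ∀ α < κ, ∀ β ≤ α, (Q α).comp (Q β) = Q β ∧ (Q β).comp (Q α) = Q β
  span : ∀ x : X, x ∈ closure
    (Submodule.span 𝕜 {y : X | ∃ β < κ, y = (Q (β + 1) - Q β) x} : Set X)

/-- `(x i, f i)` is a Markushevich basis of `X`. -/
structure IsMarkushevichBasis {I : Type u} (x : I → X) (f : I → X →L[𝕜] 𝕜) : Prop where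
  diag : ∀ i, f i (x i) = 1
  offDiag : ∀ i j, i ≠ j → f i (x j) = 0
  dense : Dense (Submodule.span 𝕜 (range x) : Set X)
  separating : ∀ y z : X, (∀ i, f i y = f i z) → y = z

open Pool.Agent.Lib.MP_14477d_an in
theorem result [CompleteSpace X] (hX : ¬ TopologicalSpace.SeparableSpace X)
    {Γ : Type v} [PartialOrder Γ] (P : Γ → X →L[𝕜] X) (hP : IsProjectionalSkeleton P) :
    ∃ (I : Type u) (x : I → X) (f : I → X →L[𝕜] 𝕜) (Q : Ordinal.{u} → X →L[𝕜] X),
      IsMarkushevichBasis x f ∧ IsSPRI (dens X).ord Q ∧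
      ∀ α ≤ (dens X).ord, (Q α) '' range x ⊆ range x ∪ {0} := by
  classical
  have hSk : Sk P := ⟨hP.sigmaComplete, hP.separable,
    fun s t h x => (DFunLike.congr_fun (hP.comm s t h).1 x).symm,
    fun s t h x => (DFunLike.congr_fun (hP.comm s t h).2 x).symm,
    fun c a hc ha => (hP.cont c a hc ha).le⟩
  obtain ⟨C, S, hS⟩ := hSk.exists_sub hP.directed fun x =>
    mem_iUnion.1 (hP.cover ▸ mem_univ x)
  obtain ⟨D, hD1, hD2⟩ : ∃ D : Set X, Dense D ∧ Cardinal.mk D = dens X :=
    csInf_mem (s := {c : Cardinal.{u} | ∃ D : Set X, Dense D ∧ Cardinal.mk D = c})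
      ⟨_, univ, dense_univ, rfl⟩
  have hκ : Cardinal.aleph0 ≤ dens X := by
    by_contra hcon
    rw [not_le, ← hD2] at hcon
    exact hX ⟨D, Cardinal.le_aleph0_iff_set_countable.1 hcon.le, hD1⟩
  have huniv : {y : X | ContinuousLinearMap.id 𝕜 X y = y} = univ := by
    ext y; simp
  obtain ⟨J, rk, R, hB, hinj, hrk⟩ := hSk.exists_blocks (C := C) (dens X) hκ
    (ContinuousLinearMap.id 𝕜 X) S (fun _ => rfl) (by rw [huniv]; exact hS)
    ⟨D, hD2.le, fun y _ => hD1 y⟩
  choose Q hQ1 hQ2 using hB.init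
  have hext : ∀ U V : X →L[𝕜] X, (∀ i x, U (R i x) = V (R i x)) → U = V := by
    intro U V h
    ext x
    have h1 : x ∈ closure (Submodule.span 𝕜 (range fun i => R i x) : Set X) := hB.dense x
    refine closure_minimal (t := {z | U z = V z}) ?_ (isClosed_eq U.continuous V.continuous) h1
    show _ ⊆ (LinearMap.eqLocus (U : X →ₗ[𝕜] X) (V : X →ₗ[𝕜] X) : Set X)
    refine SetLike.coe_subset_coe.2 (Submodule.span_le.2 ?_)
    rintro _ ⟨i, rfl⟩
    exact h i x
  have hcomm : ∀ α β, β ≤ α → (Q α).comp (Q β) = Q β ∧ (Q β).comp (Q α) = Q β := by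
    intro α β h
    constructor
    · refine hext _ _ fun i x => ?_
      rw [ContinuousLinearMap.comp_apply, hQ2 β]
      split_ifs with h1
      · rw [hQ2, if_pos (h1.trans_le h)]
      · exact map_zero _
    · refine hext _ _ fun i x => ?_
      rw [ContinuousLinearMap.comp_apply, hQ2 α]
      split_ifs with h1
      · rfl
      · rw [map_zero, hQ2, if_neg fun h2 => h1 (h2.trans_le h)]
  have hstep : ∀ α i x, (Q (α + 1) - Q α) (R i x) = if rk i = α then R i x else 0 := by
    intro α i x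
    rw [_root_.sub_apply, hQ2, hQ2]
    rcases lt_trichotomy (rk i) α with h | h | h
    · rw [if_pos h, if_pos (h.trans (Order.lt_add_one_iff.2 le_rfl)), if_neg h.ne, sub_self]
    · rw [if_pos (Order.lt_add_one_iff.2 h.le), if_neg h.not_lt, if_pos h, sub_zero]
    · rw [if_neg (fun h1 => (Order.lt_add_one_iff.1 h1).not_gt h), if_neg h.not_gt, if_neg h.ne',
        sub_self]
  have hblock : ∀ j, Q (rk j + 1) - Q (rk j) = R j := by
    intro j
    refine hext _ _ fun i x => ?_
    rw [hstep]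
    by_cases h : i = j
    · subst h; rw [if_pos rfl, hB.idem]
    · rw [if_neg fun h1 => h (hinj h1), hB.orth j i (Ne.symm h)]
  choose B hB1 hB2 hB3 hB4 hB5 using fun j => exists_markushevich_block (R j) (hB.idem j) (hB.sep j)
  refine ⟨↥(⋃ j, B j), fun p => p.1.1, fun p => p.1.2, Q, ⟨?_, ?_, ?_, ?_⟩,
    ⟨fun α _ => (hcomm α α le_rfl).1, ?_, ?_, ?_, fun α _ β h => hcomm α β h, ?_⟩, ?_⟩
  · rintro ⟨p, hp⟩
    obtain ⟨j, hj⟩ := mem_iUnion.1 hp
    exact (hB1 j).1 p hj
  · rintro ⟨p, hp⟩ ⟨q, hq⟩ hne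
    obtain ⟨j, hj⟩ := mem_iUnion.1 hp
    obtain ⟨k, hk⟩ := mem_iUnion.1 hq
    by_cases hjk : j = k
    · subst hjk
      exact (hB1 j).2 p hj q hk fun h => hne (Subtype.ext h)
    · show p.2 q.1 = 0
      rw [← hB3 j p hj, ← hB2 k q hk, hB.orth j k hjk, map_zero]
  · intro x
    refine closure_minimal ?_ isClosed_closure (hB.dense x)
    show _ ≤ ((Submodule.span 𝕜 (range fun p : ↥(⋃ j, B j) => p.1.1)).topologicalClosure : Set X)
    refine SetLike.coe_subset_coe.2 (Submodule.span_le.2 ?_)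
    rintro _ ⟨j, rfl⟩
    refine closure_mono (SetLike.coe_subset_coe.2 (Submodule.span_mono ?_)) (hB4 j x)
    rintro _ ⟨p, hp, rfl⟩
    exact ⟨⟨p, mem_iUnion.2 ⟨j, hp⟩⟩, rfl⟩
  · intro y z h
    have h1 : ∀ j, R j (y - z) = 0 := fun j => hB5 j _ fun p hp => by
      rw [map_sub, sub_eq_zero]
      exact h ⟨p, mem_iUnion.2 ⟨j, hp⟩⟩
    have h2 : y - z ∈ closure (Submodule.span 𝕜 (range fun i => R i (y - z)) : Set X) :=
      hB.dense (y - z)
    have h3 : y - z ∈ ((⊥ : Submodule 𝕜 X) : Set X) := by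
      refine closure_minimal ?_ (by simp) h2
      refine SetLike.coe_subset_coe.2 (Submodule.span_le.2 ?_)
      rintro _ ⟨j, rfl⟩
      exact h1 j
    exact sub_eq_zero.1 h3
  · refine hext _ _ fun i x => ?_
    rw [hQ2, if_neg (not_lt.2 (zero_le (a := rk i)))]; rfl
  · refine hext _ _ fun i x => ?_
    rw [hQ2, if_pos (hrk i)]; rfl
  · intro α _
    by_cases h : ∃ j, rk j = α
    · obtain ⟨j, rfl⟩ := h
      rw [hblock]; exact hB.sep j
    · have : Q (α + 1) - Q α = 0 := hext _ _ fun i x => by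
        rw [hstep, if_neg fun h1 => h ⟨i, h1⟩]; rfl
      rw [this]
      refine (finite_singleton (0 : X)).isSeparable.mono ?_
      rintro _ ⟨x, rfl⟩; rfl
  · intro x
    refine closure_mono (SetLike.coe_subset_coe.2 (Submodule.span_mono ?_)) (hB.dense x)
    rintro _ ⟨j, rfl⟩
    exact ⟨rk j, hrk j, by rw [hblock]⟩
  · rintro α - _ ⟨_, ⟨⟨p, hp⟩, rfl⟩, rfl⟩
    obtain ⟨j, hj⟩ := mem_iUnion.1 hp
    have h1 : Q α p.1 = if rk j < α then p.1 else 0 := by
      conv_lhs => rw [← hB2 j p hj]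
      rw [hQ2, hB2 j p hj]
    show Q α p.1 ∈ _
    rw [h1]
    split_ifs
    · exact Or.inl ⟨⟨p, hp⟩, rfl⟩
    · exact Or.inr rfl

end Pool.Agent.Results.MP_14477d_an.InvariantMBasis
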